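import Pool.Agent.Q289.OP.Stm
import Pool.Agent.Q289.OP.Stm2

/-!
# Project OP: averages over cells (`S_AVG`)
-/

set_option autoImplicit false

namespace Pool.Agent.Q195.OP

open MeasureTheory Set Filter Topology Q289.OP

section

variable {ι : Type} [Fintype ι] [DecidableEq ι] [PartialOrder ι]

theorem meas_VS (c : ι → ℕ) : MeasurableSet (VS c) := by
  have h : VS c = (⋂ i, {u : ι → ℝ | u i ∈ Ico (0 : ℝ) 1}) ∩
      ⋂ i, ⋂ j, ⋂ (_ : i ≤ j), {u : ι → ℝ | (c i : ℝ) + u i ≤ (c j : ℝ) + u j} := by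
    ext u
    simp only [VS, Set.mem_ofPred_eq, mem_inter_iff, mem_iInter, Monotone]
  rw [h]
  refine MeasurableSet.inter (MeasurableSet.iInter fun i => ?_)
    (MeasurableSet.iInter fun i => MeasurableSet.iInter fun j => MeasurableSet.iInter fun _ => ?_)
  · exact (measurable_pi_apply i) measurableSet_Ico
  · exact measurableSet_le ((measurable_pi_apply i).const_add _) ((measurable_pi_apply j).const_add _)

omit [Fintype ι] [DecidableEq ι] in
theorem VS_sub (c : ι → ℕ) : VS c ⊆ Icc (0 : ι → ℝ) 1 :=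
  fun _ hu => ⟨fun i => (hu.1 i).1, fun i => (hu.1 i).2.le⟩

theorem vol_VS (c : ι → ℕ) : volume (VS c) ≠ ⊤ :=
  ((measure_mono (VS_sub c)).trans_lt (isCompact_Icc (a := (0 : ι → ℝ)) (b := 1)).measure_lt_top).ne

theorem int_VS (c : ι → ℕ) {g : (ι → ℝ) → ℝ} (hg : Continuous g) : IntegrableOn g (VS c) :=
  (hg.continuousOn.integrableOn_compact isCompact_Icc).mono_set (VS_sub c)

omit [Fintype ι] [DecidableEq ι] [PartialOrder ι] in
theorem cont_pt (A B : ℝ) (N : ℕ) (c : ι → Fin (N + 1)) : Continuous (pt A B N c) := by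
  unfold pt
  fun_prop

/-- one cell -/
theorem one_cell (c : ι → ℕ) {g : (ι → ℝ) → ℝ} (hg : Continuous g) (hv : 0 < vv c) {ω : ℝ}
    (hω : ∀ u ∈ VS c, ∀ v ∈ VS c, |g u - g v| ≤ ω) :
    ∫ u in VS c, g u ^ 2 ≤ vv c * ((∫ u in VS c, g u) / vv c) ^ 2 + ω ^ 2 * vv c := by
  set V := vv c with hV
  set m := (∫ u in VS c, g u) / V with hm
  have hVr : volume.real (VS c) = V := rfl
  have h1 : ∀ u ∈ VS c, |g u - m| ≤ ω := by
    intro u hu
    have h2 : ‖∫ v in VS c, (g u - g v)‖ ≤ ω * volume.real (VS c) :=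
      norm_setIntegral_le_of_norm_le_const (vol_VS c).lt_top fun v hv' => hω u hu v hv'
    have hcst : Integrable (fun _ : ι → ℝ => g u) (volume.restrict (VS c)) :=
      integrableOn_const (vol_VS c) (by simp)
    rw [integral_sub hcst (int_VS c hg), setIntegral_const, hVr, smul_eq_mul] at h2
    have h3 : g u - m = (V * g u - ∫ v in VS c, g v) / V := by
      rw [hm]; field_simp
    rw [h3, abs_div, abs_of_pos hv, div_le_iff₀ hv]
    exact h2
  have h4 : ∫ u in VS c, (g u - m) ^ 2 ≤ ω ^ 2 * V := by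
    have h5 : ‖∫ u in VS c, (g u - m) ^ 2‖ ≤ ω ^ 2 * volume.real (VS c) :=
      norm_setIntegral_le_of_norm_le_const (vol_VS c).lt_top fun u hu => by
        rw [Real.norm_eq_abs, abs_pow]
        exact pow_le_pow_left₀ (abs_nonneg _) (h1 u hu) 2
    exact (Real.le_norm_self _).trans h5
  have h6 : ∫ u in VS c, (g u - m) ^ 2 = (∫ u in VS c, g u ^ 2) - V * m ^ 2 := by
    have h7 : ∀ u, (g u - m) ^ 2 = g u ^ 2 - 2 * m * g u + m ^ 2 := fun u => by ring
    simp only [h7]
    rw [integral_add, integral_sub, integral_const_mul, setIntegral_const, hVr, smul_eq_mul]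
    · have h8 : ∫ u in VS c, g u = m * V := by rw [hm]; field_simp
      rw [h8]; ring
    · exact int_VS c (hg.pow 2)
    · exact int_VS c (continuous_const.mul hg)
    · exact (int_VS c (hg.pow 2)).sub (int_VS c (continuous_const.mul hg))
    · exact integrableOn_const (vol_VS c) (by simp)
  linarith

end

theorem qq_pos {φ : ℝ → ℝ} {A B : ℝ} (h : Gd φ A B) (N : ℕ) (b : Fin (N + 1)) :
    0 < qq φ A B N b := by
  have hN : (0 : ℝ) < (N : ℝ) + 1 := by positivity
  have hd : 0 < dl A B N := by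
    unfold dl
    exact div_pos (by linarith [h.lt]) hN
  have hb : ((b : ℕ) : ℝ) + 1 ≤ (N : ℝ) + 1 := by
    have := b.2
    exact_mod_cast this
  have hb0 : (0 : ℝ) ≤ ((b : ℕ) : ℝ) := Nat.cast_nonneg _
  have hBe : A + dl A B N * ((N : ℝ) + 1) = B := by
    unfold dl
    field_simp
    ring
  have h1 : A + dl A B N * (b : ℕ) < A + dl A B N * ((b : ℕ) + 1) := by nlinarith
  have h2 : A ≤ A + dl A B N * (b : ℕ) := by nlinarith
  have h3 : A + dl A B N * ((b : ℕ) + 1) ≤ B := by nlinarith
  unfold qq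
  rw [integral_Ico_eq_integral_Ioc, ← intervalIntegral.integral_of_le h1.le]
  refine intervalIntegral.intervalIntegral_pos_of_pos_on ?_ (fun x hx => h.pos x ?_) h1
  · apply ContinuousOn.intervalIntegrable
    rw [uIcc_of_le h1.le]
    exact h.cont.mono (Icc_subset_Icc h2 h3)
  · exact ⟨h2.trans hx.1.le, hx.2.le.trans h3⟩

theorem avg (h : S_VPOS) : S_AVG := by
  intro ι _ _ _ φ A B hG N f hf
  have hq := qq_pos hG N
  have hN : (0 : ℝ) < (N : ℝ) + 1 := by positivity
  have hd : 0 < dl A B N := by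
    unfold dl
    exact div_pos (by linarith [hG.lt]) hN
  have hBe : A + dl A B N * ((N : ℝ) + 1) = B := by
    unfold dl
    field_simp
    ring
  have hone : ∀ c : ι → Fin (N + 1), ∫ _ in VS (fun i => (c i : ℕ)), (1 : ℝ) =
      vv fun i => (c i : ℕ) := by
    intro c
    rw [setIntegral_const, smul_eq_mul, mul_one]
    rfl
  have hzero : ∀ (c : ι → Fin (N + 1)) (g : (ι → ℝ) → ℝ), vv (fun i => (c i : ℕ)) = 0 →
      ∫ u in VS (fun i => (c i : ℕ)), g u = 0 := by
    intro c g hc
    have h1 : volume (VS fun i => (c i : ℕ)) = 0 := by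
      unfold vv at hc
      rw [ENNReal.toReal_eq_zero_iff] at hc
      exact hc.resolve_right (vol_VS _)
    exact setIntegral_measure_zero _ h1
  have hww : ∀ c : ι → Fin (N + 1), ww (qq φ A B N) c =
      (∏ i, qq φ A B N (c i)) * vv fun i => (c i : ℕ) := fun _ => rfl
  refine ⟨hq, ?_, ?_, ?_⟩
  · unfold IN
    refine Finset.sum_congr rfl fun c _ => ?_
    rw [hww, mul_assoc]
    congr 1
    unfold av
    by_cases hc : vv (fun i => (c i : ℕ)) = 0
    · rw [hc, hzero c _ hc, zero_mul]
    · rw [mul_div_cancel₀ _ hc]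
  · unfold IN
    refine Finset.sum_congr rfl fun c _ => ?_
    rw [hww, hone]
  · intro ω hω
    unfold IN
    rw [Finset.mul_sum, ← Finset.sum_add_distrib]
    refine Finset.sum_le_sum fun c _ => ?_
    rw [hone, hww]
    have hp : 0 ≤ ∏ i, qq φ A B N (c i) := Finset.prod_nonneg fun i _ => (hq _).le
    have key : ∫ u in VS (fun i => (c i : ℕ)), f (pt A B N c u) ^ 2 ≤
        (vv fun i => (c i : ℕ)) * av A B N f c ^ 2 + ω ^ 2 * vv fun i => (c i : ℕ) := by
      by_cases hc : vv (fun i => (c i : ℕ)) = 0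
      · rw [hc, hzero c _ hc]
        simp
      · have hc' : 0 < vv (fun i => (c i : ℕ)) := lt_of_le_of_ne (h ι _).1 (Ne.symm hc)
        refine one_cell (fun i => (c i : ℕ)) (hf.comp (cont_pt A B N c)) hc' ?_
        intro u hu v hv
        have hbox : ∀ w ∈ VS (fun i => (c i : ℕ)), ∀ i, pt A B N c w i ∈ Icc A B := by
          intro w hw i
          have h1 := (hw.1 i).1
          have h2 := (hw.1 i).2
          have h3 : ((c i : ℕ) : ℝ) + 1 ≤ (N : ℝ) + 1 := by
            have := (c i).2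
            exact_mod_cast this
          have h4 : (0 : ℝ) ≤ ((c i : ℕ) : ℝ) := Nat.cast_nonneg _
          unfold pt
          constructor
          · have : 0 ≤ dl A B N * (((c i : ℕ) : ℝ) + w i) := by positivity
            linarith
          · have : dl A B N * (((c i : ℕ) : ℝ) + w i) ≤ dl A B N * ((N : ℝ) + 1) :=
              mul_le_mul_of_nonneg_left (by linarith) hd.le
            linarith
        refine hω _ _ (hbox u hu) (hbox v hv) fun i => ?_
        have h1 := hu.1 i
        have h2 := hv.1 i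
        have h3 : pt A B N c u i - pt A B N c v i = dl A B N * (u i - v i) := by
          unfold pt
          ring
        rw [h3, abs_mul, abs_of_pos hd]
        refine mul_le_of_le_one_right hd.le ?_
        rw [abs_le]
        constructor
        · linarith [h1.1, h2.2]
        · linarith [h1.2, h2.1]
    have h5 := mul_le_mul_of_nonneg_left key hp
    calc (∏ i, qq φ A B N (c i)) * ∫ u in VS (fun i => (c i : ℕ)), f (pt A B N c u) ^ 2
        ≤ (∏ i, qq φ A B N (c i)) * ((vv fun i => (c i : ℕ)) * av A B N f c ^ 2 +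
          ω ^ 2 * vv fun i => (c i : ℕ)) := h5
      _ = _ := by ring

end Pool.Agent.Q195.OP
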